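import Pool.Agent.H2.QT4

set_option autoImplicit false

namespace Pool.Agent.Results.MP_77f213_al.NotAttained

/-- any two points are joined by a geodesic -/
def Geodesic (X : Type) [MetricSpace X] : Prop :=
  ∀ x y : X, ∃ γ : ℝ → X, γ 0 = x ∧ γ (dist x y) = y ∧
    ∀ s ∈ Set.Icc (0:ℝ) (dist x y), ∀ t ∈ Set.Icc (0:ℝ) (dist x y), dist (γ s) (γ t) = |s - t|

/-- Gromov hyperbolicity -/
def Hyperbolic (X : Type) [MetricSpace X] : Prop :=
  ∃ δ : ℝ, ∀ x y z w : X,
    min ((dist x w + dist y w - dist x y) / 2) ((dist y w + dist z w - dist y z) / 2) - δ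
      ≤ (dist x w + dist z w - dist x z) / 2

/-- the action is geometric -/
def Geometric (G X : Type) [Group G] [MetricSpace X] [MulAction G X] : Prop :=
  Nonempty X ∧ ProperSpace X ∧ Geodesic X ∧ IsIsometricSMul G X ∧ ProperlyDiscontinuousSMul G X ∧
    ∃ K : Set X, IsCompact K ∧ ∀ x : X, ∃ g : G, g • x ∈ K

/-- `f` is an `(L, C)`-quasi-isometry -/
def IsQI {X Y : Type} [MetricSpace X] [MetricSpace Y] (L C : ℝ) (f : X → Y) : Prop :=
  (∀ x y : X, dist x y / L - C ≤ dist (f x) (f y) ∧ dist (f x) (f y) ≤ L * dist x y + C) ∧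
    ∀ z : Y, ∃ x : X, dist (f x) z ≤ C

theorem result : ∃ (X₀ X₁ : Type) (_ : MetricSpace X₀) (_ : MetricSpace X₁)
    (_ : MulAction (FreeGroup Bool) X₀) (_ : MulAction (FreeGroup Bool) X₁),
    Geometric (FreeGroup Bool) X₀ ∧ Geometric (FreeGroup Bool) X₁ ∧
    Hyperbolic X₀ ∧ Hyperbolic X₁ ∧
    {L : ℝ | 1 ≤ L ∧ ∃ (C : ℝ) (f : X₀ → X₁), 0 ≤ C ∧ IsQI L C f} = Set.Ioi 1 := by
  open Pool.Agent.H2.QT in
  refine ⟨T W0, T W1, inferInstance, inferInstance, inferInstance, inferInstance,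
    ⟨inferInstance, inferInstance, geo_all _, inferInstance, inferInstance, cocompact _⟩,
    ⟨inferInstance, inferInstance, geo_all _, inferInstance, inferInstance, cocompact _⟩,
    hyperbolic _, hyperbolic _, ?_⟩
  ext L
  constructor
  · rintro ⟨h1, C, f, -, hf, -⟩
    refine lt_of_le_of_ne h1 fun e => ?_
    subst e
    exact Pool.Agent.H2.QT.no_rough f C fun x y => by simpa using hf x y
  · intro h
    obtain ⟨f, c, h1, h2⟩ := Pool.Agent.H2.QT.exists_qi Pool.Agent.H2.QT.ent0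
      Pool.Agent.H2.QT.ent1 h
    refine ⟨le_of_lt h, c, f, ?_, h1, h2⟩
    obtain ⟨x, hx⟩ := h2 (Pool.Agent.H2.QT.vx _ 1)
    exact dist_nonneg.trans hx

end Pool.Agent.Results.MP_77f213_al.NotAttained
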